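import Mathlib

set_option autoImplicit false

namespace Pool.Agent.Y828.WH

/-- Cao's sequence `U_0 = 1, U_1 = 3, U_{n+2} = 4 U_{n+1} - U_n`. -/
def U : ℕ → ℤ
  | 0 => 1
  | 1 => 3
  | (n + 2) => 4 * U (n + 1) - U n

theorem h12 : 1 < 2 := by norm_num

/-- first coordinate of `(2 + √3)^n` -/
def X (n : ℕ) : ℤ := (Pell.xn h12 n : ℤ)

/-- second coordinate of `(2 + √3)^n` -/
def Y (n : ℕ) : ℤ := (Pell.yn h12 n : ℤ)

theorem X_zero : X 0 = 1 := by simp [X]
theorem Y_zero : Y 0 = 0 := by simp [Y]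

theorem X_succ (n : ℕ) : X (n + 1) = 2 * X n + 3 * Y n := by
  have h : Pell.xn h12 (n + 1) = Pell.xn h12 n * 2 + 3 * Pell.yn h12 n := Pell.xn_succ h12 n
  rw [X, X, Y, h]; push_cast; ring

theorem Y_succ (n : ℕ) : Y (n + 1) = X n + 2 * Y n := by
  rw [Y, X, Y, Pell.yn_succ]; push_cast; ring

theorem X_add (m n : ℕ) : X (m + n) = X m * X n + 3 * Y m * Y n := by
  have h : Pell.xn h12 (m + n) = Pell.xn h12 m * Pell.xn h12 n +
    3 * Pell.yn h12 m * Pell.yn h12 n := Pell.xn_add h12 m n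
  simp only [X, Y]
  rw [h]; push_cast; ring

theorem Y_add (m n : ℕ) : Y (m + n) = X m * Y n + Y m * X n := by
  simp only [X, Y]
  rw [Pell.yn_add]; push_cast; ring

theorem norm_one (n : ℕ) : X n ^ 2 - 3 * Y n ^ 2 = 1 := by
  induction n with
  | zero => rw [X_zero, Y_zero]; norm_num
  | succ n ih => rw [X_succ, Y_succ]; linear_combination ih

theorem U_eq (n : ℕ) : U n = X n + Y n := by
  induction n using Nat.twoStepInduction with
  | zero => rw [U, X_zero, Y_zero]; norm_num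
  | one => rw [U, X_succ, Y_succ, X_zero, Y_zero]; norm_num
  | more n ih1 ih2 =>
    rw [U, ih1, ih2, X_succ (n + 1), Y_succ (n + 1), X_succ n, Y_succ n]; ring

theorem T_eq (n : ℕ) : 3 * U n ^ 2 - 1 = X (2 * n + 1) := by
  have h : 2 * n + 1 = n + (n + 1) := by ring
  rw [h, X_add, U_eq, X_succ, Y_succ]
  linear_combination norm_one n

theorem X_pos (n : ℕ) : 0 < X n := by
  have := Pell.x_pos h12 n
  simp only [X]; exact_mod_cast this

theorem Y_nonneg (n : ℕ) : 0 ≤ Y n := by simp [Y]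

theorem U_pos (n : ℕ) : 0 < U n := by
  rw [U_eq]; have := X_pos n; have := Y_nonneg n; linarith

theorem X_ge (n : ℕ) : (2 : ℤ) ^ n ≤ X n := by
  have := Pell.xn_ge_a_pow h12 n
  simp only [X]; exact_mod_cast this

theorem X_strictMono : StrictMono X := by
  intro a b h
  have := Pell.strictMono_x h12 h
  simp only [X]; exact_mod_cast this

/-- `c_j = 2 X (j s)` satisfies the Chebyshev recursion -/
theorem cheb (s j : ℕ) : 2 * X ((j + 2) * s) = (2 * X s) * (2 * X ((j + 1) * s)) - 2 * X (j * s) := by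
  have e1 : (j + 1) * s = j * s + s := by ring
  have e2 : (j + 2) * s = j * s + s + s := by ring
  rw [e1, e2, X_add (j * s + s) s, X_add (j * s) s, Y_add (j * s) s]
  linear_combination (-2 * X (j * s)) * norm_one s

theorem period (s i : ℕ) :
    (2 * X s + 1 ∣ 2 * X ((3 * i) * s) - 2) ∧ (2 * X s + 1 ∣ 2 * X ((3 * i + 1) * s) + 1) ∧
      (2 * X s + 1 ∣ 2 * X ((3 * i + 2) * s) + 1) := by
  induction i with
  | zero =>
    refine ⟨?_, ?_, ?_⟩
    · simp [X_zero]
    · simp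
    · have := cheb s 0
      simp only [zero_add, zero_mul, X_zero, one_mul] at this
      have h2 : (3 * 0 + 2) * s = 2 * s := by ring
      rw [h2, this]
      exact ⟨2 * X s - 1, by ring⟩
  | succ i ih =>
    obtain ⟨h0, h1, h2⟩ := ih
    have c3 := cheb s (3 * i + 1)
    have c4 := cheb s (3 * i + 2)
    have c5 := cheb s (3 * i + 3)
    have e3 : 3 * (i + 1) = 3 * i + 1 + 2 := by ring
    have e4 : 3 * (i + 1) + 1 = 3 * i + 2 + 2 := by ring
    have e5 : 3 * (i + 1) + 2 = 3 * i + 3 + 2 := by ring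
    have e31 : 3 * i + 1 + 1 = 3 * i + 2 := by ring
    have e41 : 3 * i + 2 + 1 = 3 * i + 1 + 2 := by ring
    have e51 : 3 * i + 3 + 1 = 3 * i + 2 + 2 := by ring
    have e52 : 3 * i + 3 = 3 * i + 1 + 2 := by ring
    rw [e31] at c3
    rw [e41] at c4
    rw [e51, e52] at c5
    have g3 : 2 * X s + 1 ∣ 2 * X ((3 * i + 1 + 2) * s) - 2 := by
      obtain ⟨a, ha⟩ := h1
      obtain ⟨b, hb⟩ := h2
      rw [c3]
      refine ⟨2 * X s * b - a - 1, ?_⟩
      linear_combination (2 * X s) * hb - ha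
    have g4 : 2 * X s + 1 ∣ 2 * X ((3 * i + 2 + 2) * s) + 1 := by
      obtain ⟨a, ha⟩ := h2
      obtain ⟨b, hb⟩ := g3
      rw [c4]
      refine ⟨2 * X s * b - a + 2, ?_⟩
      linear_combination (2 * X s) * hb - ha
    have g5 : 2 * X s + 1 ∣ 2 * X ((3 * i + 1 + 2 + 2) * s) + 1 := by
      obtain ⟨a, ha⟩ := g3
      obtain ⟨b, hb⟩ := g4
      rw [c5]
      refine ⟨2 * X s * b - a - 1, ?_⟩
      linear_combination (2 * X s) * hb - ha
    rw [e5, e4, e3, e52]
    exact ⟨g3, g4, g5⟩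

theorem dvd_of_not_three {s r : ℕ} (hr : ¬ 3 ∣ r) : 2 * X s + 1 ∣ 2 * X (r * s) + 1 := by
  obtain ⟨h0, h1, h2⟩ := period s (r / 3)
  have hmod : r % 3 = 1 ∨ r % 3 = 2 := by omega
  rcases hmod with h | h
  · have : r = 3 * (r / 3) + 1 := by omega
    rw [this]; exact h1
  · have : r = 3 * (r / 3) + 2 := by omega
    rw [this]; exact h2

theorem X_triple (m : ℕ) : X (3 * m) = 4 * X m ^ 3 - 3 * X m := by
  have e : 3 * m = m + m + m := by ring
  rw [e, X_add, X_add, Y_add]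
  linear_combination (-3 * X m) * norm_one m

end Pool.Agent.Y828.WH
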