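import Mathlib
import Pool.Agent.Y828.WH.Basic

set_option autoImplicit false

namespace Pool.Agent.Y828.WH

/-- `(p, q)` is a Whiteman pair: `p, q` primes, `q = 3 p + 2`, `p q - 1 = 4 x^2`, `x` odd. -/
def IsWhitemanPair (p q : ℕ) : Prop :=
  p.Prime ∧ q.Prime ∧ q = 3 * p + 2 ∧ ∃ x : ℕ, Odd x ∧ p * q = 4 * x ^ 2 + 1

theorem exists_eq_sq {a b c : ℕ} (hab : Nat.Coprime a b) (h : a * b = c ^ 2) : ∃ d, a = d ^ 2 := by
  apply exists_eq_pow_of_mul_eq_pow (b := b) (c := c) _ h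
  rw [Nat.isUnit_iff]
  exact hab

/-- descent to `3 U^2 - V^2 = 2` -/
theorem step_one {p q : ℕ} (h : IsWhitemanPair p q) :
    ∃ u v : ℕ, Odd u ∧ Odd v ∧ p + 1 = 2 * u ^ 2 ∧ 3 * u ^ 2 = v ^ 2 + 2 := by
  obtain ⟨hp, hq, hqp, x, hx, he⟩ := h
  have hp2 : p ≠ 2 := by
    rintro rfl
    rw [hqp] at hq
    norm_num at hq
  have hodd : Odd p := hp.odd_of_ne_two hp2
  obtain ⟨a', ha'⟩ := hodd
  -- `p + 1 = 2 A`
  set A : ℕ := a' + 1 with hA
  have hpA : p + 1 = 2 * A := by omega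
  have hp3 : 3 ≤ p := by
    have := hp.two_le
    omega
  have hA2 : 2 ≤ A := by omega
  obtain ⟨B, hB⟩ : ∃ B, 3 * A = B + 2 := ⟨3 * A - 2, by omega⟩
  have hAB : A * B = x ^ 2 := by
    have h1 : p = 2 * A - 1 := by omega
    have h2 : (p : ℤ) = 2 * A - 1 := by omega
    have h3 : (q : ℤ) = 3 * p + 2 := by exact_mod_cast hqp
    have h4 : (p : ℤ) * q = 4 * x ^ 2 + 1 := by exact_mod_cast he
    have h5 : (B : ℤ) = 3 * A - 2 := by omega
    have h6 : (A : ℤ) * B = x ^ 2 := by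
      rw [h5]
      rw [h3, h2] at h4
      nlinarith
    exact_mod_cast h6
  have hx2 : Odd (x ^ 2) := hx.pow
  rw [← hAB] at hx2
  obtain ⟨hAo, hBo⟩ := Nat.odd_mul.mp hx2
  have hcop : Nat.Coprime A B := by
    have hg : Nat.gcd A B ∣ 2 := by
      have h1 : Nat.gcd A B ∣ B + 2 := by
        rw [← hB]
        exact Dvd.dvd.mul_left (Nat.gcd_dvd_left A B) 3
      exact (Nat.dvd_add_right (Nat.gcd_dvd_right A B)).mp h1
    have hg2 : Odd (Nat.gcd A B) := by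
      obtain ⟨c, hc⟩ := Nat.gcd_dvd_left A B
      rw [hc] at hAo
      exact (Nat.odd_mul.mp hAo).1
    rcases (Nat.dvd_prime Nat.prime_two).mp hg with h1 | h1
    · exact h1
    · rw [h1] at hg2
      exact absurd hg2 (by decide)
  obtain ⟨u, hu⟩ := exists_eq_sq hcop hAB
  obtain ⟨v, hv⟩ := exists_eq_sq hcop.symm ((mul_comm B A).trans hAB)
  refine ⟨u, v, ?_, ?_, ?_, ?_⟩
  · rw [hu] at hAo
    exact (Nat.odd_pow_iff (by norm_num)).mp hAo
  · rw [hv] at hBo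
    exact (Nat.odd_pow_iff (by norm_num)).mp hBo
  · rw [← hu]; exact hpA
  · rw [← hu, ← hv]; exact hB

theorem X_even_odd (j : ℕ) : Odd (X (2 * j)) := by
  have h : 2 * j = j + j := by ring
  rw [h, X_add]
  have h1 := norm_one j
  refine ⟨X j ^ 2 - 1, ?_⟩
  linear_combination -h1

/-- every Whiteman pair is `(2 U_n^2 - 1, 6 U_n^2 - 1)` for some `n` -/
theorem step_two {p q : ℕ} (h : IsWhitemanPair p q) :
    ∃ n : ℕ, (p : ℤ) = 2 * U n ^ 2 - 1 ∧ (q : ℤ) = 6 * U n ^ 2 - 1 := by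
  obtain ⟨u, v, hu, hv, h1, h2⟩ := step_one h
  obtain ⟨hp, hq, hqp, -⟩ := h
  have hu1 : 1 ≤ u := hu.pos
  -- `T = 3 u^2 - 1`
  obtain ⟨T, hT⟩ : ∃ T, 3 * u ^ 2 = T + 1 := ⟨3 * u ^ 2 - 1, by
    have : 1 ≤ u ^ 2 := Nat.one_le_pow _ _ hu1
    omega⟩
  have hpell : T * T - 3 * (u * v) * (u * v) = 1 := by
    have e1 : T * T = 3 * (u * v) * (u * v) + 1 := by
      have h3 : (3 : ℤ) * u ^ 2 = T + 1 := by exact_mod_cast hT
      have h4 : (3 : ℤ) * u ^ 2 = v ^ 2 + 2 := by exact_mod_cast h2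
      have h5 : (T : ℤ) = v ^ 2 + 1 := by linarith
      have h6 : (T : ℤ) * T = 3 * (u * v) * (u * v) + 1 := by
        have h7 : (v : ℤ) ^ 2 = 3 * u ^ 2 - 2 := by linarith
        have h8 : (3 : ℤ) * (u * v) * (u * v) = (3 * u ^ 2) * v ^ 2 := by ring
        rw [h8, h4, h5]; ring
      exact_mod_cast h6
    rw [e1]
    omega
  obtain ⟨m, hm1, hm2⟩ := Pell.eq_pell h12 (x := T) (y := u * v) hpell
  have hXT : X m = 3 * (u : ℤ) ^ 2 - 1 := by
    rw [X, ← hm1]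
    have h3 : (3 : ℤ) * u ^ 2 = T + 1 := by exact_mod_cast hT
    linarith
  -- `m` is odd
  have hmodd : Odd m := by
    by_contra hne
    rw [Nat.not_odd_iff_even] at hne
    obtain ⟨j, hj⟩ := hne
    have h3 := X_even_odd j
    have h4 : 2 * j = m := by omega
    rw [h4, hXT] at h3
    obtain ⟨w, hw⟩ := hu
    obtain ⟨z, hz⟩ := h3
    rw [hw] at hz
    push_cast at hz
    have h5 : (3 : ℤ) * (2 * w + 1) ^ 2 = 12 * (w * w + w) + 3 := by ring
    rw [h5] at hz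
    omega
  obtain ⟨n, hn⟩ := hmodd
  have hU : U n ^ 2 = (u : ℤ) ^ 2 := by
    have := T_eq n
    rw [← hn, hXT] at this
    linarith
  refine ⟨n, ?_, ?_⟩
  · rw [hU]
    have : ((p + 1 : ℕ) : ℤ) = ((2 * u ^ 2 : ℕ) : ℤ) := by rw [h1]
    push_cast at this
    linarith
  · rw [hU]
    have : ((p + 1 : ℕ) : ℤ) = ((2 * u ^ 2 : ℕ) : ℤ) := by rw [h1]
    push_cast at this
    have h3 : (q : ℤ) = 3 * p + 2 := by exact_mod_cast hqp
    linarith

/-- if `q = 6 U_n^2 - 1` is prime then `2 n + 1` is a power of `3` -/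
theorem pow_three {n q : ℕ} (hq : q.Prime) (h : (q : ℤ) = 6 * U n ^ 2 - 1) :
    ∃ k : ℕ, 2 * n + 1 = 3 ^ k := by
  have hqX : (q : ℤ) = 2 * X (2 * n + 1) + 1 := by
    rw [← T_eq, h]; ring
  refine ⟨_, Nat.eq_prime_pow_of_unique_prime_dvd (p := 3) (by omega) ?_⟩
  intro r hr hdvd
  by_contra hne
  obtain ⟨s, hs⟩ := hdvd
  have h3 : ¬ 3 ∣ r := by
    intro h3
    exact hne ((Nat.prime_dvd_prime_iff_eq Nat.prime_three hr).mp h3).symm
  have hd := dvd_of_not_three (s := s) h3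
  rw [← hs, ← hqX] at hd
  have hXs : 0 < X s := X_pos s
  obtain ⟨c, hc⟩ : ∃ c : ℕ, (c : ℤ) = 2 * X s + 1 := ⟨(2 * X s + 1).toNat, by
    rw [Int.toNat_of_nonneg (by linarith)]⟩
  rw [← hc] at hd
  have hd' : c ∣ q := by exact_mod_cast hd
  rcases (Nat.dvd_prime hq).mp hd' with h4 | h4
  · rw [h4] at hc
    push_cast at hc
    linarith
  · rw [h4, hqX] at hc
    have h5 : X (2 * n + 1) = X s := by linarith
    have h6 := X_strictMono.injective h5
    have h7 : s = r * s := by rw [← hs, h6]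
    have h8 : 0 < s := by
      rcases Nat.eq_zero_or_pos s with h0 | h0
      · rw [h0] at hs; omega
      · exact h0
    have h9 : 2 ≤ r := hr.two_le
    nlinarith

theorem V_sq (n : ℕ) : 3 * U n ^ 2 = (X n + 3 * Y n) ^ 2 + 2 := by
  rw [U_eq]
  linear_combination 2 * norm_one n

theorem U_odd (n : ℕ) : Odd (U n) := by
  induction n using Nat.twoStepInduction with
  | zero => rw [U]; exact odd_one
  | one => rw [U]; exact ⟨1, by norm_num⟩
  | more n ih1 ih2 =>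
    rw [U]
    exact Even.sub_odd ⟨2 * U (n + 1), by ring⟩ ih1

/-- conversely both numbers prime gives a Whiteman pair -/
theorem whiteman_of {p q n : ℕ} (hp : p.Prime) (hq : q.Prime) (h1 : (p : ℤ) = 2 * U n ^ 2 - 1)
    (h2 : (q : ℤ) = 6 * U n ^ 2 - 1) : IsWhitemanPair p q := by
  refine ⟨hp, hq, ?_, ?_⟩
  · have : (q : ℤ) = 3 * p + 2 := by rw [h1, h2]; ring
    exact_mod_cast this
  · have hUp := U_pos n
    obtain ⟨u, hu⟩ : ∃ u : ℕ, (u : ℤ) = U n := ⟨(U n).toNat, Int.toNat_of_nonneg hUp.le⟩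
    have hVp : 0 ≤ X n + 3 * Y n := by
      have := X_pos n; have := Y_nonneg n; linarith
    obtain ⟨v, hv⟩ : ∃ v : ℕ, (v : ℤ) = X n + 3 * Y n := ⟨_, Int.toNat_of_nonneg hVp⟩
    have hV := V_sq n
    rw [← hu, ← hv] at hV
    have hU := U_odd n
    rw [← hu] at hU
    have huodd : Odd u := by exact_mod_cast hU
    have hvodd : Odd v := by
      have h5 : 3 * u ^ 2 = v ^ 2 + 2 := by exact_mod_cast hV
      have h6 : Odd (3 * u ^ 2) := (by decide : Odd 3).mul huodd.pow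
      rw [h5] at h6
      have h7 : Odd (v ^ 2) := by
        rw [Nat.odd_add] at h6
        exact h6.mpr (by decide)
      exact (Nat.odd_pow_iff (by norm_num)).mp h7
    refine ⟨u * v, huodd.mul hvodd, ?_⟩
    have : (p : ℤ) * q = 4 * (u * v) ^ 2 + 1 := by
      rw [h1, h2, ← hu]
      have h8 : (v : ℤ) ^ 2 = 3 * u ^ 2 - 2 := by linarith
      have h9 : ((u : ℤ) * v) ^ 2 = u ^ 2 * v ^ 2 := by ring
      rw [h9, h8]
      ring
    exact_mod_cast this

end Pool.Agent.Y828.WH
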