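import Mathlib
import Pool.Agent.Y828.WH.Main

set_option autoImplicit false

namespace Pool.Agent.Y828.WH

/-- `X (3^k)` modulo `r`, by the tripling formula -/
def it (r : ℕ) : ℕ → ℕ
  | 0 => 2 % r
  | (k + 1) => (4 * (it r k) ^ 3 + (r - 3) * it r k) % r

theorem it_spec {r : ℕ} (hr : 3 ≤ r) (k : ℕ) : (r : ℤ) ∣ X (3 ^ k) - (it r k : ℤ) := by
  induction k with
  | zero =>
    have h1 : X (3 ^ 0) = 2 := by
      rw [pow_zero]
      have := X_succ 0
      rw [zero_add, X_zero, Y_zero] at this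
      rw [this]; norm_num
    rw [h1, it]
    push_cast
    exact Int.dvd_self_sub_emod
  | succ k ih =>
    rw [pow_succ, mul_comm, X_triple, it]
    push_cast [Nat.cast_sub hr]
    have h1 : (r : ℤ) ∣ (4 * (it r k : ℤ) ^ 3 + ((r : ℤ) - 3) * (it r k : ℤ)) -
        (4 * (it r k : ℤ) ^ 3 + ((r : ℤ) - 3) * (it r k : ℤ)) % (r : ℤ) := Int.dvd_self_sub_emod
    obtain ⟨a, ha⟩ := h1
    obtain ⟨b, hb⟩ := ih
    have hb' : X (3 ^ k) = (it r k : ℤ) + r * b := by linarith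
    rw [hb']
    set t : ℤ := (it r k : ℤ) with ht
    refine ⟨a + (4 * (3 * t ^ 2 * b + 3 * t * r * b ^ 2 + r ^ 2 * b ^ 3) - 3 * b - t), ?_⟩
    linear_combination ha

/-- first member of the `k`-th candidate pair -/
def P (k : ℕ) : ℤ := 2 * U ((3 ^ k - 1) / 2) ^ 2 - 1

/-- second member of the `k`-th candidate pair -/
def Q (k : ℕ) : ℤ := 6 * U ((3 ^ k - 1) / 2) ^ 2 - 1

theorem idx (k : ℕ) : 2 * ((3 ^ k - 1) / 2) + 1 = 3 ^ k := by
  have h : Odd (3 ^ k) := (by decide : Odd 3).pow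
  obtain ⟨m, hm⟩ := h
  omega

theorem Q_eq (k : ℕ) : Q k = 2 * X (3 ^ k) + 1 := by
  rw [← idx k, ← T_eq, Q]; ring

theorem P_eq (k : ℕ) : 3 * P k = 2 * X (3 ^ k) - 1 := by
  rw [← idx k, ← T_eq, P]; ring

theorem not_prime_Q {k r : ℕ} (a : ℕ) (hr : 3 ≤ r) (hr2' : (r : ℤ) ≤ 2 ^ a) (ha : a ≤ 3 ^ k)
    (h : r ∣ 2 * it r k + 1) : ∀ q : ℕ, (q : ℤ) = Q k → ¬ q.Prime := by
  intro q hq hprime
  have hr2 : (r : ℤ) ≤ 2 ^ (3 ^ k) := hr2'.trans (pow_le_pow_right₀ (by norm_num) ha)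
  have h1 := it_spec hr k
  have h2 : (r : ℤ) ∣ (q : ℤ) := by
    rw [hq, Q_eq]
    have h3 : (r : ℤ) ∣ 2 * (it r k : ℤ) + 1 := by exact_mod_cast h
    have h4 : (2 * X (3 ^ k) + 1 : ℤ) = 2 * (X (3 ^ k) - it r k) + (2 * (it r k : ℤ) + 1) := by
      ring
    rw [h4]
    exact dvd_add (Dvd.dvd.mul_left h1 2) h3
  have h3 : r ∣ q := by exact_mod_cast h2
  rcases (Nat.dvd_prime hprime).mp h3 with h4 | h4
  · omega
  · have h5 := X_ge (3 ^ k)
    have h6 : (q : ℤ) = 2 * X (3 ^ k) + 1 := by rw [hq, Q_eq]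
    rw [h4] at hr2
    have h7 := X_pos (3 ^ k)
    linarith

theorem not_prime_P {k r : ℕ} (a : ℕ) (hr : 3 ≤ r) (hr3 : r % 3 ≠ 0) (hr2' : (3 * r : ℤ) ≤ 2 ^ a)
    (ha : a ≤ 3 ^ k) (h : r ∣ 2 * it r k + (r - 1)) : ∀ p : ℕ, (p : ℤ) = P k → ¬ p.Prime := by
  intro p hp hprime
  have hr2 : (3 * r : ℤ) ≤ 2 ^ (3 ^ k) := hr2'.trans (pow_le_pow_right₀ (by norm_num) ha)
  have h1 := it_spec hr k
  have h2 : (r : ℤ) ∣ 3 * (p : ℤ) := by
    rw [hp, P_eq]
    have h3 : (r : ℤ) ∣ 2 * (it r k : ℤ) + ((r : ℤ) - 1) := by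
      have h31 : ((r : ℕ) : ℤ) ∣ ((2 * it r k + (r - 1) : ℕ) : ℤ) := Int.natCast_dvd_natCast.mpr h
      have h32 : 1 ≤ r := by omega
      push_cast [Nat.cast_sub h32] at h31
      exact h31
    have h4 : (2 * X (3 ^ k) - 1 : ℤ) = 2 * (X (3 ^ k) - it r k) +
        (2 * (it r k : ℤ) + ((r : ℤ) - 1)) - r := by
      ring
    rw [h4]
    exact dvd_sub (dvd_add (Dvd.dvd.mul_left h1 2) h3) (dvd_refl _)
  have h3 : r ∣ 3 * p := by exact_mod_cast h2
  have hcop : Nat.Coprime r 3 := by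
    rw [Nat.coprime_comm, Nat.Prime.coprime_iff_not_dvd Nat.prime_three]
    intro h; omega
  have h3' : r ∣ p := hcop.dvd_of_dvd_mul_left h3
  rcases (Nat.dvd_prime hprime).mp h3' with h4 | h4
  · omega
  · have h5 := X_ge (3 ^ k)
    have h6 : 3 * (p : ℤ) = 2 * X (3 ^ k) - 1 := by rw [hp, P_eq]
    rw [h4] at hr2
    have h7 := X_pos (3 ^ k)
    linarith

theorem small_excluded {k : ℕ} (h3 : 3 ≤ k) (h8 : k ≤ 8) {p q : ℕ} (hp : (p : ℤ) = P k)
    (hq : (q : ℤ) = Q k) (hpp : p.Prime) (hqp : q.Prime) : False := by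
  interval_cases k
  · exact not_prime_Q (r := 6317) 20 (by norm_num) (by norm_num) (by norm_num) (by decide) q hq hqp
  · exact not_prime_Q (r := 56377) 40 (by norm_num) (by norm_num) (by norm_num) (by decide) q hq hqp
  · exact not_prime_Q (r := 4745228669) 40 (by norm_num) (by norm_num) (by norm_num) (by decide) q hq hqp
  · exact not_prime_Q (r := 4373) 40 (by norm_num) (by norm_num) (by norm_num) (by decide) q hq hqp
  · exact not_prime_P (r := 13121) 40 (by norm_num) (by norm_num) (by norm_num) (by norm_num) (by decide) p hp hpp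
  · exact not_prime_Q (r := 98118692117) 40 (by norm_num) (by norm_num) (by norm_num) (by decide) q hq hqp

end Pool.Agent.Y828.WH
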